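import Pool.Agent.H.MP_d87c46_gt.C

namespace Pool.Agent.Results.MP_d87c46_gt.No

open Pool.Agent.H.MP_d87c46_gt

theorem result : ∃ g : Met,
    (∀ i j, ContDiff ℝ (⊤ : ℕ∞) (fun x => g x i j)) ∧
    (∀ x, (g x).IsSymm ∧ ∃ A : Matrix (Fin 4) (Fin 4) ℝ,
      A.transpose * g x * A = Matrix.diagonal ![-1, 1, 1, 1]) ∧
    (∀ σ : V → ℝ, ContDiff ℝ (⊤ : ℕ∞) σ → (AE g σ ↔ ∃ a b : ℝ, ∀ x, σ x = a + b * x 0)) ∧
    (∃ p a b c d, weyl g p a b c d ≠ 0) ∧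
    ∀ (p : V) (U : Set V), IsOpen U → p ∈ U → ∀ (F : V → V) (φ : V → ℝ),
      ContDiffOn ℝ (⊤ : ℕ∞) F U → ContDiffOn ℝ (⊤ : ℕ∞) φ U → (∀ x ∈ U, 0 < φ x) →
      ¬ ∀ x ∈ U, ∀ a b, ∑ i, ∑ j,
        gpp (F x) i j * pd a (fun z => F z i) x * pd b (fun z => F z j) x = φ x ^ 2 * g x a b := by
  refine ⟨G, fun i j => ?_, fun x => ⟨?_, lor_G x⟩, ae_G, ⟨_, _, _, _, _, weyl_G⟩,
    fun p U hU hp F φ hF hφ pos h => noiso_G p U hU hp F φ hF hφ pos h⟩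
  · simp only [G_eq]
    fun_prop
  · ext i j
    simp only [Matrix.transpose_apply, G_eq]
    ring

end Pool.Agent.Results.MP_d87c46_gt.No
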